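import Pool.Agent.TWC.FinP

/-!
# Full twists along an arc in an alternating diagram

The proof is in `Pool/Agent/TWC/`. The definitions used in the statement are in
`Pool/Agent/TWC/Defs.lean` and `DefsP.lean` (full twists, arcs, nugatory crossings),
`Pool/Agent/TWI/Defs.lean` (regions), `Pool/Agent/ARB/Defs.lean` (diagrams in Morse position) and
`Pool/Agent/Helper2/Diagram.lean` (link diagrams, the Kauffman bracket and the f-polynomial).
-/

set_option autoImplicit false

namespace Pool.Agent.Results.MP_42db45_gt.ArcTwists

open Pool.Agent.Helper2 Pool.Agent.ARB Pool.TWC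

/-- Let `u ++ v` be an alternating diagram, cut by a horizontal line with `n` strands above `u`,
and consider the arc in this line from the unbounded region (gap `0`) to the gap `w ≤ n`. Suppose
that every path between the regions of the two ends of the arc which avoids the crossings meets
the diagram in at least 3 points, and that no crossing is nugatory relative to the arc. If `K` is
a diagram of an oriented link obtained by `k ≠ 0` full twists of the `w` strands which meet the
arc, then `f_K` is not a unit of `ℤ[A, A⁻¹]`; in particular `f_K ≠ 1`. -/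
theorem result (u v : Word) (n w : ℕ) (k : ℤ) (K : List Slice) (e : Bool)
    (hu : Pool.Agent.ARB.Ok u 0 n) (hv : Pool.Agent.ARB.Ok v n 0) (hw : w ≤ n)
    (ha : ∀ (p : Bool) (i : ℕ), pX i p ∈ u ++ v → (p = e ↔ i % 2 = 0))
    (hd : ∀ j ≤ 2, ¬ Arc (u ++ v) j (u.length, 0) (u.length, w)) (hr : RelRed u v w)
    (hk : k ≠ 0) (hK : IsDiagram K) (hKf : forget K = u ++ FT w k ++ v) :
    ¬ IsUnit (fPoly K) :=
  mainPF e u v n w k K hu hv hw ha (redA_of hr) hd hk hK hKf

end Pool.Agent.Results.MP_42db45_gt.ArcTwists
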